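import Mathlib
import Pool.Agent.Helper9.FA.ZDefs

/-!
# The operators `Zop`, `Dz`, `DD` on words
-/

namespace Pool.Agent.Helper9.FA

open Finset
open Pool.Agent.Helper9.Kashaev Pool.Agent.Helper9.TG
open Pool.Agent.Helper9 (TB.lam TB.bb TB.sf)

/-! ### recursion -/

theorem Zop_zero (N : ℕ) (f : List ℕ → ℂ) : Zop N 0 f = fun _ => 0 := by
  funext w
  simp [Zop, Eop]

lemma h8_Zop_nil (N j : ℕ) (f : List ℕ → ℂ) : Zop N j f [] = 0 := by
  simp [Zop, Eop]

lemma h8_Zop_cons (N j : ℕ) (f : List ℕ → ℂ) (x : ℕ) (w : List ℕ) :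
    Zop N (j + 1) f (x :: w) = ecoef N (x + 1) * v N ^ (wtl N (w.take j)) * f ((x + 1) :: w) +
      Zop N j (fun u => f (x :: u)) w := by
  simp [Zop, Eop]

/-- `Zop N j` as a linear map -/
noncomputable def ZL (N j : ℕ) : (List ℕ → ℂ) →ₗ[ℂ] (List ℕ → ℂ) where
  toFun := Zop N j
  map_add' f g := by funext w; exact Eop_add N _ _ _
  map_smul' c f := by funext w; exact Eop_smul N c _ _

theorem ZL_apply (N j : ℕ) (f : List ℕ → ℂ) : ZL N j f = Zop N j f := rfl

lemma h8_Zop_zero_fun (N j : ℕ) : Zop N j (fun _ => 0) = fun _ => 0 := (ZL N j).map_zero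

lemma h8_Zop_smul (N j : ℕ) (c : ℂ) (f : List ℕ → ℂ) (w : List ℕ) :
    Zop N j (fun u => c * f u) w = c * Zop N j f w := Eop_smul N c _ _

lemma h8_Zop_add (N j : ℕ) (f g : List ℕ → ℂ) (w : List ℕ) :
    Zop N j (fun u => f u + g u) w = Zop N j f w + Zop N j g w := Eop_add N _ _ _

/-- the first `u.length` letters -/
theorem Zop_append (N : ℕ) (f : List ℕ → ℂ) (u w : List ℕ) :
    Zop N u.length f (u ++ w) = Eop N (fun u' => f (u' ++ w)) u := by
  simp [Zop]

lemma h8_wtl_append (N : ℕ) (u w : List ℕ) : wtl N (u ++ w) = wtl N u + wtl N w := by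
  induction u with
  | nil => simp [wtl]
  | cons x u ih => simp only [List.cons_append, wtl, ih]; ring

/-- one more letter -/
theorem Zop_succ (N : ℕ) (f : List ℕ → ℂ) (u w : List ℕ) (i : ℕ) :
    Zop N (u.length + 1) f (u ++ i :: w) =
      v N ^ (wt N i) * Zop N u.length f (u ++ i :: w) + ecoef N (i + 1) * f (u ++ (i + 1) :: w) := by
  induction u generalizing f with
  | nil =>
    simp only [List.length_nil, List.nil_append, h8_Zop_cons, Zop_zero, List.take_zero, wtl,
      zpow_zero, mul_one]
    ring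
  | cons y u ih =>
    simp only [List.length_cons, List.cons_append]
    rw [h8_Zop_cons, h8_Zop_cons, ih]
    have h1 : (u ++ i :: w).take (u.length + 1) = u ++ [i] := by
      rw [List.take_append]; simp
    have h2 : (u ++ i :: w).take u.length = u := by simp
    rw [h1, h2, h8_wtl_append, ← vz]
    simp only [wtl, add_zero]
    ring

/-! ### commutation -/

lemma h8_Zop_wt_le {N : ℕ} : ∀ (w : List ℕ) (i j : ℕ) (_ : i ≤ j) (h : List ℕ → ℂ),
    Zop N i (fun u => v N ^ (wtl N (u.take j)) * h u) w =
      v N ^ (-2 : ℤ) * v N ^ (wtl N (w.take j)) * Zop N i h w := by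
  intro w
  induction w with
  | nil => intro i j _ h; simp [h8_Zop_nil]
  | cons x w ih =>
    intro i j hij h
    rcases i with _ | i
    · simp [Zop_zero]
    · obtain ⟨j, rfl⟩ : ∃ j', j = j' + 1 := ⟨j - 1, by omega⟩
      rw [h8_Zop_cons, h8_Zop_cons]
      simp only [List.take_succ_cons, wtl]
      have e1 : (fun u : List ℕ => v N ^ (wt N x + wtl N (u.take j)) * h (x :: u)) =
          fun u => v N ^ (wt N x) * (v N ^ (wtl N (u.take j)) * h (x :: u)) := by
        funext u; rw [← vz]; ring
      rw [e1, h8_Zop_smul, ih i j (by omega)]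
      have e2 : v N ^ (wt N (x + 1) + wtl N (w.take j)) =
          v N ^ (-2 : ℤ) * (v N ^ (wt N x) * v N ^ (wtl N (w.take j))) := by
        rw [vz, vz]; congr 1; unfold wt; push_cast; ring
      have e3 : v N ^ (wt N x + wtl N (w.take j)) = v N ^ (wt N x) * v N ^ (wtl N (w.take j)) :=
        (vz _ _ _).symm
      rw [e2, e3]
      ring

lemma h8_Zop_wt_ge {N : ℕ} : ∀ (w : List ℕ) (i j : ℕ) (_ : i ≤ j) (h : List ℕ → ℂ),
    Zop N j (fun u => v N ^ (wtl N (u.take i)) * h u) w =
      v N ^ (wtl N (w.take i)) * Zop N j h w +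
        (v N ^ (-2 : ℤ) - 1) * v N ^ (wtl N (w.take j)) * Zop N i h w := by
  intro w
  induction w with
  | nil => intro i j _ h; simp [h8_Zop_nil]
  | cons x w ih =>
    intro i j hij h
    rcases i with _ | i
    · simp [Zop_zero, wtl]
    · obtain ⟨j, rfl⟩ : ∃ j', j = j' + 1 := ⟨j - 1, by omega⟩
      rw [h8_Zop_cons, h8_Zop_cons, h8_Zop_cons]
      simp only [List.take_succ_cons, wtl]
      have e1 : (fun u : List ℕ => v N ^ (wt N x + wtl N (u.take i)) * h (x :: u)) =
          fun u => v N ^ (wt N x) * (v N ^ (wtl N (u.take i)) * h (x :: u)) := by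
        funext u; rw [← vz]; ring
      rw [e1, h8_Zop_smul, ih i j (by omega)]
      have e2 : v N ^ (wt N (x + 1) + wtl N (w.take i)) =
          v N ^ (-2 : ℤ) * (v N ^ (wt N x) * v N ^ (wtl N (w.take i))) := by
        rw [vz, vz]; congr 1; unfold wt; push_cast; ring
      have e3 : ∀ i, v N ^ (wt N x + wtl N (w.take i)) =
          v N ^ (wt N x) * v N ^ (wtl N (w.take i)) := fun i => (vz _ _ _).symm
      rw [e2, e3, e3]
      ring

lemma h8_Zop_comm_le {N : ℕ} : ∀ (w : List ℕ) (i j : ℕ) (_ : i ≤ j) (f : List ℕ → ℂ),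
    Zop N i (Zop N j f) w = Zop N j (Zop N i f) w := by
  intro w
  induction w with
  | nil => intro i j _ f; simp [h8_Zop_nil]
  | cons x w ih =>
    intro i j hij f
    rcases i with _ | i
    · rw [Zop_zero, Zop_zero, h8_Zop_zero_fun]
    · obtain ⟨j, rfl⟩ : ∃ j', j = j' + 1 := ⟨j - 1, by omega⟩
      have e1 : ∀ i j : ℕ, (fun u => Zop N (j + 1) f (x :: u)) = fun u =>
          ecoef N (x + 1) * (v N ^ (wtl N (u.take j)) * f ((x + 1) :: u)) +
            Zop N j (fun u => f (x :: u)) u := by
        intro i j; funext u; rw [h8_Zop_cons]; ring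
      rw [h8_Zop_cons, h8_Zop_cons, h8_Zop_cons, h8_Zop_cons, e1 i j, e1 j i, h8_Zop_add, h8_Zop_add, h8_Zop_smul,
        h8_Zop_smul, h8_Zop_wt_le w i j (by omega) (fun u => f ((x + 1) :: u)),
        h8_Zop_wt_ge w i j (by omega) (fun u => f ((x + 1) :: u)),
        ih i j (by omega) (fun u => f (x :: u))]
      ring

theorem Zop_comm (N i j : ℕ) (f : List ℕ → ℂ) : Zop N i (Zop N j f) = Zop N j (Zop N i f) := by
  funext w
  rcases Nat.le_total i j with h | h
  · exact h8_Zop_comm_le w i j h f
  · exact (h8_Zop_comm_le w j i h f).symm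

/-! ### nilpotency -/

lemma h8_Eop_congr {N : ℕ} : ∀ (w : List ℕ) (f g : List ℕ → ℂ),
    (∀ u, u.length = w.length → f u = g u) → Eop N f w = Eop N g w := by
  intro w
  induction w with
  | nil => intro f g _; simp [Eop]
  | cons x w ih =>
    intro f g h
    simp only [Eop]
    rw [h ((x + 1) :: w) (by simp), ih (fun u => f (x :: u)) (fun u => g (x :: u))]
    intro u hu
    exact h (x :: u) (by simp [hu])

lemma h8_EL_pow_congr {N : ℕ} (m : ℕ) : ∀ (w : List ℕ) (f g : List ℕ → ℂ),
    (∀ u, u.length = w.length → f u = g u) → (EL N ^ m) f w = (EL N ^ m) g w := by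
  induction m with
  | zero => intro w f g h; exact h w rfl
  | succ m ih =>
    intro w f g h
    rw [pow_succ, Module.End.mul_apply, Module.End.mul_apply]
    apply ih
    intro u hu
    exact h8_Eop_congr u f g (fun u' hu' => h u' (by rw [hu', hu]))

lemma h8_Zop_iter (N j m : ℕ) : ∀ (f : List ℕ → ℂ) (w : List ℕ),
    (Zop N j)^[m] f w = (EL N ^ m) (fun u => f (u ++ w.drop j)) (w.take j) := by
  induction m with
  | zero => intro f w; simp
  | succ m ih =>
    intro f w
    rw [Function.iterate_succ_apply, ih, pow_succ, Module.End.mul_apply]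
    apply h8_EL_pow_congr
    intro u hu
    rw [List.length_take] at hu
    show Eop N (fun u' => f (u' ++ (u ++ w.drop j).drop j)) ((u ++ w.drop j).take j) =
      Eop N (fun u' => f (u' ++ w.drop j)) u
    rcases Nat.le_total j w.length with h | h
    · have hj : j = u.length := by omega
      have h1 : (u ++ w.drop j).take j = u := by
        conv_lhs => rw [hj]
        simp
      have h2 : (u ++ w.drop j).drop j = w.drop j := by
        conv_lhs => rw [show (u ++ w.drop j).drop j = (u ++ w.drop j).drop u.length by rw [← hj]]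
        simp
      rw [h1, h2]
    · have h0 : w.drop j = [] := List.drop_eq_nil_of_le h
      rw [h0, List.append_nil, List.take_of_length_le (by omega),
        List.drop_eq_nil_of_le (by omega)]

theorem Zop_pow_N {N : ℕ} (hN : 2 ≤ N) (j : ℕ) (f : List ℕ → ℂ) : (Zop N j)^[N] f = fun _ => 0 := by
  funext w
  rw [h8_Zop_iter, EL_pow_N hN]
  rfl

/-! ### supports -/

lemma h8_Zop_Sup_aux {N : ℕ} : ∀ (w : List ℕ) (n j : ℕ) (f : List ℕ → ℂ), Sup N n f →
    ¬ (w.length = n ∧ ∀ x ∈ w, x < N) → Zop N j f w = 0 := by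
  intro w
  induction w with
  | nil => intro n j f _ _; exact h8_Zop_nil N j f
  | cons x w ih =>
    intro n j f hf hw
    rcases j with _ | j
    · rw [Zop_zero]
    rw [h8_Zop_cons]
    have h1 : f ((x + 1) :: w) = 0 := by
      apply hf
      rintro ⟨h1, h2⟩
      apply hw
      refine ⟨by simpa using h1, ?_⟩
      intro y hy
      rcases List.mem_cons.mp hy with rfl | hy
      · have := h2 (y + 1) (by simp); omega
      · exact h2 y (List.mem_cons_of_mem _ hy)
    have h2 : Zop N j (fun u => f (x :: u)) w = 0 := by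
      rcases n with _ | n
      · rw [hf.cons_zero', h8_Zop_zero_fun]
      · by_cases hx : x < N
        · apply ih n j _ (hf.cons x)
          rintro ⟨h1, h2⟩
          apply hw
          refine ⟨by simp [h1], ?_⟩
          intro y hy
          rcases List.mem_cons.mp hy with rfl | hy
          · exact hx
          · exact h2 y hy
        · rw [hf.cons_zero (by omega), h8_Zop_zero_fun]
    rw [h1, h2]; ring

theorem Sup.Zop {N n : ℕ} {f : List ℕ → ℂ} (hf : Sup N n f) (j : ℕ) : Sup N n (Zop N j f) :=
  fun w hw => h8_Zop_Sup_aux w n j f hf hw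

lemma h8_Sup_Zop_iter {N n : ℕ} {f : List ℕ → ℂ} (hf : Sup N n f) (j m : ℕ) :
    Sup N n ((FA.Zop N j)^[m] f) := by
  induction m generalizing f with
  | zero => exact hf
  | succ m ih => rw [Function.iterate_succ_apply]; exact ih (Sup.Zop hf j)

theorem Zop_full {N : ℕ} (f : List ℕ → ℂ) {w : List ℕ} {n : ℕ} (hw : w.length ≤ n) :
    Zop N n f w = Eop N f w := by
  unfold Zop
  rw [List.take_of_length_le hw, List.drop_eq_nil_of_le hw]
  simp

/-! ### several operators -/

theorem Dz_append (N j : ℕ) (l r : List ℕ) (f : List ℕ → ℂ) :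
    Dz N j (l ++ r) f = Dz N (j + l.length) r (Dz N j l f) := by
  induction l generalizing j f with
  | nil => simp [Dz]
  | cons x l ih =>
    simp only [List.cons_append, Dz, List.length_cons]
    rw [ih, show j + 1 + l.length = j + (l.length + 1) by ring]

lemma h8_Zop_iter_add (N j m : ℕ) (f g : List ℕ → ℂ) :
    (Zop N j)^[m] (fun w => f w + g w) = fun w => (Zop N j)^[m] f w + (Zop N j)^[m] g w := by
  induction m generalizing f g with
  | zero => rfl
  | succ m ih =>
    simp only [Function.iterate_succ_apply]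
    rw [show Zop N j (fun w => f w + g w) = fun w => Zop N j f w + Zop N j g w from
      funext fun w => h8_Zop_add N j f g w, ih]

lemma h8_Zop_iter_smul (N j m : ℕ) (c : ℂ) (f : List ℕ → ℂ) :
    (Zop N j)^[m] (fun w => c * f w) = fun w => c * (Zop N j)^[m] f w := by
  induction m generalizing f with
  | zero => rfl
  | succ m ih =>
    simp only [Function.iterate_succ_apply]
    rw [show Zop N j (fun w => c * f w) = fun w => c * Zop N j f w from
      funext fun w => h8_Zop_smul N j c f w, ih]

theorem Dz_add (N j : ℕ) (d : List ℕ) (f g : List ℕ → ℂ) :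
    Dz N j d (fun w => f w + g w) = fun w => Dz N j d f w + Dz N j d g w := by
  induction d generalizing j f g with
  | nil => rfl
  | cons x d ih => simp only [Dz]; rw [h8_Zop_iter_add, ih]

theorem Dz_smul (N j : ℕ) (d : List ℕ) (c : ℂ) (f : List ℕ → ℂ) :
    Dz N j d (fun w => c * f w) = fun w => c * Dz N j d f w := by
  induction d generalizing j f with
  | nil => rfl
  | cons x d ih => simp only [Dz]; rw [h8_Zop_iter_smul, ih]

lemma h8_Dz_zero_fun (N j : ℕ) (d : List ℕ) : Dz N j d (fun _ => 0) = fun _ => 0 := by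
  have h := Dz_smul N j d 0 (fun _ => 0)
  simpa using h

theorem Dz_Sup {N n j : ℕ} {f : List ℕ → ℂ} (hf : Sup N n f) (d : List ℕ) : Sup N n (Dz N j d f) := by
  induction d generalizing j f with
  | nil => exact hf
  | cons x d ih => exact ih (h8_Sup_Zop_iter hf j x)

/-- an operator `T` that commutes with the `Zop` involved commutes with `Dz` -/
theorem Dz_comm {N j : ℕ} (T : (List ℕ → ℂ) → List ℕ → ℂ) (d : List ℕ)
    (hT : ∀ i, j ≤ i → i < j + d.length → ∀ g, T (Zop N i g) = Zop N i (T g)) (f : List ℕ → ℂ) :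
    Dz N j d (T f) = T (Dz N j d f) := by
  induction d generalizing j f with
  | nil => rfl
  | cons x d ih =>
    have h1 : ∀ m g, (Zop N j)^[m] (T g) = T ((Zop N j)^[m] g) := by
      intro m
      induction m with
      | zero => intro g; rfl
      | succ m ihm =>
        intro g
        rw [Function.iterate_succ_apply, Function.iterate_succ_apply, ← ihm,
          hT j le_rfl (by simp)]
    simp only [Dz]
    rw [h1, ih]
    intro i h2 h3 g
    exact hT i (by omega) (by simp only [List.length_cons]; omega) g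

theorem Dz_Zop_comm (N i j : ℕ) (d : List ℕ) (f : List ℕ → ℂ) (x : ℕ) :
    Dz N j d ((Zop N i)^[x] f) = (Zop N i)^[x] (Dz N j d f) := by
  apply Dz_comm
  intro k _ _ g
  have h1 : ∀ m g, (Zop N i)^[m] (Zop N k g) = Zop N k ((Zop N i)^[m] g) := by
    intro m
    induction m with
    | zero => intro g; rfl
    | succ m ihm =>
      intro g
      rw [Function.iterate_succ_apply, Function.iterate_succ_apply, Zop_comm, ihm]
  exact h1 x g

/-- an entry `≥ N` -/
theorem DD_ge {N : ℕ} (hN : 2 ≤ N) (f : List ℕ → ℂ) {d : List ℕ} {x : ℕ} (hx : x ∈ d) (h : N ≤ x) :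
    DD N f d = 0 := by
  obtain ⟨l, r, rfl⟩ := List.append_of_mem hx
  unfold DD
  rw [Dz_append]
  simp only [Dz]
  obtain ⟨y, rfl⟩ := Nat.exists_eq_add_of_le' h
  rw [Function.iterate_add_apply, Zop_pow_N hN]
  have h0 : ∀ m, (Zop N (0 + l.length))^[m] (fun _ => 0) = fun _ => 0 := by
    intro m
    induction m with
    | zero => rfl
    | succ m ih => rw [Function.iterate_succ_apply, h8_Zop_zero_fun, ih]
  rw [h0, h8_Dz_zero_fun]

/-- the initial function; the coordinates of `e_0` -/
theorem DD_ket {N : ℕ} (hN : 2 ≤ N) {d : List ℕ} (hd : d.length = 2) :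
    DD N (ket [0]) d = del0 d := by
  obtain ⟨x, y, rfl⟩ := List.length_eq_two.mp hd
  have h1 : Zop N 1 (ket [0]) = fun _ => 0 := by
    funext w
    rcases w with _ | ⟨a, w⟩
    · exact h8_Zop_nil N 1 _
    · rw [h8_Zop_cons, Zop_zero]
      simp [ket]
  have h0 : ∀ j m, (Zop N j)^[m] (fun _ => 0) = fun _ => 0 := by
    intro j m
    induction m with
    | zero => rfl
    | succ m ih => rw [Function.iterate_succ_apply, h8_Zop_zero_fun, ih]
  simp only [DD, Dz, del0, List.length_cons, List.length_nil]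
  rcases x with _ | x
  · rcases y with _ | y
    · simp [ket]
    · simp only [Function.iterate_zero, id_eq, zero_add]
      rw [Function.iterate_succ_apply, h1, h0]
      simp
  · rw [Function.iterate_succ_apply, Zop_zero, h0, h0]
    simp

/-- the coordinates of a function of one strand -/
theorem DD_one (N : ℕ) (f : List ℕ → ℂ) : DD N f [0, 0] = f [0] := by
  simp [DD, Dz]

end Pool.Agent.Helper9.FA
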