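import Mathlib
import Pool.Agent.Helper8.FA.ZBASE
import Pool.Agent.Helper57.TG.Cas
import Pool.Agent.Helper21.FA.LOCC
import Pool.Agent.Helper95.FA.LOCA
import Pool.Agent.Helper95.FA.LOCD

/-!
# The three rules for lists
-/

namespace Pool.Agent.Helper9.FA

open Finset
open Pool.Agent.Helper9.Kashaev Pool.Agent.Helper9.TG
open Pool.Agent.Helper9 (TB.lam TB.bb TB.sf)

/-! ### operators at position `k` -/

/-- an operator at position `k` -/
noncomputable def h8P (T : (List ℕ → ℂ) → List ℕ → ℂ) : ℕ → (List ℕ → ℂ) → List ℕ → ℂ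
  | 0, f, w => T f w
  | _ + 1, _, [] => 0
  | k + 1, f, x :: w => h8P T k (fun u => f (x :: u)) w

lemma h8_slice_eq (N : ℕ) (p : Piece) (k : ℕ) (f : List ℕ → ℂ) :
    Kashaev.slice N p k f = h8P (piece N p) k f := by
  induction k generalizing f with
  | zero => funext w; simp only [Kashaev.slice, h8P]
  | succ k ih =>
    funext w
    rcases w with _ | ⟨x, w⟩
    · simp only [Kashaev.slice, h8P]
    · simp only [Kashaev.slice, h8P]; rw [ih]

lemma h8_UK_eq (N m k : ℕ) (f : List ℕ → ℂ) : UK N k m f = h8P (nC N m) k f := by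
  induction k generalizing f with
  | zero => funext w; simp only [UK, h8P]
  | succ k ih =>
    funext w
    rcases w with _ | ⟨x, w⟩
    · simp only [UK, h8P]
    · simp only [UK, h8P]; rw [ih]

/-- linear operators -/
structure h8Lin (T : (List ℕ → ℂ) → List ℕ → ℂ) : Prop where
  add : ∀ f g w, T (fun u => f u + g u) w = T f w + T g w
  smul : ∀ c f w, T (fun u => c * f u) w = c * T f w

lemma h8Lin.P {T : (List ℕ → ℂ) → List ℕ → ℂ} (hT : h8Lin T) (k : ℕ) : h8Lin (h8P T k) := by
  induction k with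
  | zero => exact ⟨hT.add, hT.smul⟩
  | succ k ih =>
    refine ⟨?_, ?_⟩
    · intro f g w
      rcases w with _ | ⟨x, w⟩
      · simp [h8P]
      · simp only [h8P]; exact ih.add _ _ _
    · intro c f w
      rcases w with _ | ⟨x, w⟩
      · simp [h8P]
      · simp only [h8P]; exact ih.smul _ _ _

lemma h8_P_wt_le {N : ℕ} {T : (List ℕ → ℂ) → List ℕ → ℂ} (hT : h8Lin T) :
    ∀ (k i : ℕ) (_ : i ≤ k) (g : List ℕ → ℂ) (w : List ℕ) (φ : ℤ → ℂ),
    h8P T k (fun u => φ (wtl N (u.take i)) * g u) w = φ (wtl N (w.take i)) * h8P T k g w := by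
  intro k
  induction k with
  | zero =>
    intro i hi g w φ
    obtain rfl : i = 0 := by omega
    simp only [List.take_zero]
    exact hT.smul _ _ _
  | succ k ih =>
    intro i hi g w φ
    rcases w with _ | ⟨x, w⟩
    · simp [h8P]
    · rcases i with _ | i
      · simp only [List.take_zero]
        exact (hT.P (k + 1)).smul _ _ _
      · simp only [h8P, List.take_succ_cons, wtl]
        exact ih i (by omega) (fun u => g (x :: u)) w (fun y => φ (wt N x + y))

/-- commutation at the left -/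
lemma h8_P_left {N : ℕ} {T : (List ℕ → ℂ) → List ℕ → ℂ} (hT : h8Lin T) :
    ∀ (k i : ℕ) (_ : i ≤ k) (f : List ℕ → ℂ) (w : List ℕ),
    h8P T k (Zop N i f) w = Zop N i (h8P T k f) w := by
  intro k
  induction k with
  | zero =>
    intro i hi f w
    obtain rfl : i = 0 := by omega
    rw [Zop_zero, Zop_zero]
    have h := (hT.P 0).smul 0 (fun _ => 0) w
    simpa using h
  | succ k ih =>
    intro i hi f w
    rcases i with _ | i
    · rw [Zop_zero, Zop_zero]
      have h := (hT.P (k + 1)).smul 0 (fun _ => 0) w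
      simpa using h
    · rcases w with _ | ⟨x, w⟩
      · rw [h8_Zop_nil]; rfl
      · rw [h8_Zop_cons]
        simp only [h8P]
        have e1 : (fun u => Zop N (i + 1) f (x :: u)) = fun u =>
            (fun u => (fun y => ecoef N (x + 1) * v N ^ y) (wtl N (u.take i)) *
              (fun u => f ((x + 1) :: u)) u) u + (fun u => Zop N i (fun u => f (x :: u)) u) u := by
          funext u; rw [h8_Zop_cons]
        rw [e1, (hT.P k).add, h8_P_wt_le hT k i (by omega)
          (fun u => f ((x + 1) :: u)) w (fun y => ecoef N (x + 1) * v N ^ y),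
          ih i (by omega) (fun u => f (x :: u)) w]

/-- weights at the right -/
lemma h8_P_wt_ge {N a b : ℕ} {T : (List ℕ → ℂ) → List ℕ → ℂ}
    (hW : ∀ (φ : ℤ → ℂ) (i : ℕ) (g : List ℕ → ℂ) (w : List ℕ),
      T (fun u => φ (wtl N (u.take (i + a))) * g u) w = φ (wtl N (w.take (i + b))) * T g w) :
    ∀ (k : ℕ) (φ : ℤ → ℂ) (i : ℕ) (g : List ℕ → ℂ) (w : List ℕ),
    h8P T k (fun u => φ (wtl N (u.take (i + k + a))) * g u) w =
      φ (wtl N (w.take (i + k + b))) * h8P T k g w := by
  intro k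
  induction k with
  | zero => intro φ i g w; exact hW φ i g w
  | succ k ih =>
    intro φ i g w
    rcases w with _ | ⟨x, w⟩
    · simp [h8P]
    · simp only [h8P]
      rw [show i + (k + 1) + a = (i + k + a) + 1 by ring,
        show i + (k + 1) + b = (i + k + b) + 1 by ring]
      simp only [List.take_succ_cons, wtl]
      exact ih (fun y => φ (wt N x + y)) i (fun u => g (x :: u)) w

/-- commutation at the right -/
lemma h8_P_right {N a b n0 : ℕ} {T : (List ℕ → ℂ) → List ℕ → ℂ} (hT : h8Lin T)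
    (hW : ∀ (φ : ℤ → ℂ) (i : ℕ) (g : List ℕ → ℂ) (w : List ℕ),
      T (fun u => φ (wtl N (u.take (i + a))) * g u) w = φ (wtl N (w.take (i + b))) * T g w)
    (hB : ∀ n f, Sup N (n + n0) f → ∀ i w, T (Zop N (i + a) f) w = Zop N (i + b) (T f) w) :
    ∀ (k n : ℕ) (f : List ℕ → ℂ), Sup N (n + k + n0) f → ∀ (i : ℕ) (w : List ℕ),
    h8P T k (Zop N (i + k + a) f) w = Zop N (i + k + b) (h8P T k f) w := by
  intro k
  induction k with
  | zero => intro n f hf i w; exact hB n f hf i w
  | succ k ih =>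
    intro n f hf i w
    rcases w with _ | ⟨x, w⟩
    · rw [h8_Zop_nil]; rfl
    · rw [show i + (k + 1) + a = (i + k + a) + 1 by ring,
        show i + (k + 1) + b = (i + k + b) + 1 by ring, h8_Zop_cons]
      simp only [h8P]
      have e1 : (fun u => Zop N (i + k + a + 1) f (x :: u)) = fun u =>
          (fun u => (fun y => ecoef N (x + 1) * v N ^ y) (wtl N (u.take (i + k + a))) *
            (fun u => f ((x + 1) :: u)) u) u +
            (fun u => Zop N (i + k + a) (fun u => f (x :: u)) u) u := by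
        funext u; rw [h8_Zop_cons]
      have hf' : Sup N (n + k + n0 + 1) f := by
        rw [show n + k + n0 + 1 = n + (k + 1) + n0 by ring]; exact hf
      rw [e1, (hT.P k).add, h8_P_wt_ge hW k (fun y => ecoef N (x + 1) * v N ^ y) i
        (fun u => f ((x + 1) :: u)) w, ih n (fun u => f (x :: u)) (hf'.cons x) i w]

lemma h8_P_append {T : (List ℕ → ℂ) → List ℕ → ℂ} (g : List ℕ → ℂ) (u w : List ℕ) :
    h8P T u.length g (u ++ w) = T (fun w' => g (u ++ w')) w := by
  induction u generalizing g with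
  | nil => rfl
  | cons x u ih => simp only [List.length_cons, List.cons_append, h8P]; exact ih _

/-! ### the pieces -/

lemma h8_Zop_split (N i : ℕ) (f : List ℕ → ℂ) (a b : ℕ) (w : List ℕ) :
    Zop N (i + 2) f (a :: b :: w) = v N ^ (wtl N (w.take i)) * Eop N (fun u => f (u ++ w)) [a, b] +
      Zop N i (fun u => f (a :: b :: u)) w := by
  rw [h8_Zop_cons, h8_Zop_cons]
  simp only [Eop, wtl, add_zero, zpow_zero, mul_one, List.cons_append, List.nil_append,
    List.take_succ_cons]
  rw [← vz]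
  ring

lemma h8_piece_lin (N : ℕ) (p : Piece) : h8Lin (piece N p) :=
  ⟨fun f g w => piece_add N p f g w, fun c f w => piece_smul N p c f w⟩

lemma h8_nC_lin (N m : ℕ) : h8Lin (nC N m) := by
  induction m with
  | zero => exact ⟨fun f g w => rfl, fun c f w => rfl⟩
  | succ m ih =>
    refine ⟨?_, ?_⟩
    · intro f g w
      simp only [nC]
      have h : nC N m (fun u => f u + g u) = fun u => nC N m f u + nC N m g u :=
        funext fun u => ih.add f g u
      rw [h, h57_Cas_add]; ring
    · intro c f w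
      simp only [nC]
      have h : nC N m (fun u => c * f u) = fun u => c * nC N m f u :=
        funext fun u => ih.smul c f u
      rw [h, h57_Cas_smul]; ring

lemma h8_cup_W {N : ℕ} (φ : ℤ → ℂ) (i : ℕ) (g : List ℕ → ℂ) (w : List ℕ) :
    piece N .cup (fun u => φ (wtl N (u.take (i + 0))) * g u) w =
      φ (wtl N (w.take (i + 2))) * piece N .cup g w := by
  rcases w with _ | ⟨a, _ | ⟨b, w⟩⟩
  · simp [piece]
  · simp [piece]
  · simp only [piece, List.take_succ_cons, wtl, add_zero]
    split_ifs with h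
    · rw [show wt N a + (wt N b + wtl N (w.take i)) = wtl N (w.take i) by
        have := wt_add_wt h; linarith]
      ring
    · ring

lemma h8_cap_W {N : ℕ} (φ : ℤ → ℂ) (i : ℕ) (g : List ℕ → ℂ) (w : List ℕ) :
    piece N .cap (fun u => φ (wtl N (u.take (i + 2))) * g u) w =
      φ (wtl N (w.take (i + 0))) * piece N .cap g w := by
  simp only [piece, List.take_succ_cons, wtl, add_zero]
  rw [mul_sum]
  apply sum_congr rfl
  intro a ha
  rw [mem_range] at ha
  rw [show wt N a + (wt N (N - 1 - a) + wtl N (w.take i)) = wtl N (w.take i) by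
    have := wt_add_wt (N := N) (a := a) (b := N - 1 - a) (by omega); linarith]
  ring

lemma h8_Cas_W {N : ℕ} (φ : ℤ → ℂ) (i : ℕ) (g : List ℕ → ℂ) (w : List ℕ) :
    Cas N (fun u => φ (wtl N (u.take (i + 2))) * g u) w =
      φ (wtl N (w.take (i + 2))) * Cas N g w := by
  rcases w with _ | ⟨a, _ | ⟨b, w⟩⟩
  · simp [h57_Cas_nil]
  · simp [h57_Cas_one]
  rw [h57_Cas_expl, h57_Cas_expl]
  simp only [List.take_succ_cons, wtl]
  have hB : h57B N a b * φ (wt N (a - 1) + (wt N (b + 1) + wtl N (w.take i))) =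
      h57B N a b * φ (wt N a + (wt N b + wtl N (w.take i))) := by
    by_cases h : 1 ≤ a ∧ a < N ∧ b + 1 < N
    · have : wt N (a - 1) + (wt N (b + 1) + wtl N (w.take i)) =
          wt N a + (wt N b + wtl N (w.take i)) := by
        simp only [wt]
        push_cast [Nat.cast_sub h.1]
        ring
      rw [this]
    · rw [h57B_zero h]; ring
  have hD : h57D N a b * φ (wt N (a + 1) + (wt N (b - 1) + wtl N (w.take i))) =
      h57D N a b * φ (wt N a + (wt N b + wtl N (w.take i))) := by
    by_cases h : 1 ≤ b ∧ b < N ∧ a + 1 < N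
    · have : wt N (a + 1) + (wt N (b - 1) + wtl N (w.take i)) =
          wt N a + (wt N b + wtl N (w.take i)) := by
        simp only [wt]
        push_cast [Nat.cast_sub h.1]
        ring
      rw [this]
    · rw [h57D_zero h]; ring
  linear_combination g ((a - 1) :: (b + 1) :: w) * hB + g ((a + 1) :: (b - 1) :: w) * hD

lemma h8_nC_W {N : ℕ} (m : ℕ) (φ : ℤ → ℂ) (i : ℕ) (g : List ℕ → ℂ) (w : List ℕ) :
    nC N m (fun u => φ (wtl N (u.take (i + 2))) * g u) w =
      φ (wtl N (w.take (i + 2))) * nC N m g w := by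
  induction m generalizing w with
  | zero => rfl
  | succ m ih =>
    simp only [nC]
    have h : nC N m (fun u => φ (wtl N (u.take (i + 2))) * g u) =
        fun u => φ (wtl N (u.take (i + 2))) * nC N m g u := funext fun u => ih u
    rw [h, h8_Cas_W]
    ring

lemma h8_cup_B {N : ℕ} (f : List ℕ → ℂ) (i : ℕ) (w : List ℕ) :
    piece N .cup (Zop N (i + 0) f) w = Zop N (i + 2) (piece N .cup f) w := by
  rcases w with _ | ⟨a, _ | ⟨b, w⟩⟩
  · rw [h8_Zop_nil]; rfl
  · rw [h8_Zop_cons, h8_Zop_nil]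
    simp [piece]
  · rw [h8_Zop_split]
    have h1 : Eop N (fun u => piece N .cup f (u ++ w)) [a, b] = 0 := by
      have h2 := piece_cup_E (N := N) (fun _ => f w) [a, b]
      have h3 : Eop N (fun u => piece N .cup f (u ++ w)) [a, b] =
          Eop N (piece N .cup (fun _ => f w)) [a, b] := by
        apply h57_E2_congr
        intro a b
        simp [piece]
      rw [h3, ← h2]
      simp [piece, Eop]
    rw [h1]
    simp only [piece, add_zero, mul_zero, zero_add]
    by_cases h : a + b + 1 = N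
    · simp only [if_pos h]
      rw [h8_Zop_smul]
    · simp only [if_neg h]
      rw [h8_Zop_zero_fun]

lemma h8_Zop_sum {ι : Type*} (N i : ℕ) (s : Finset ι) (F : ι → List ℕ → ℂ) (w : List ℕ) :
    Zop N i (fun u => ∑ a ∈ s, F a u) w = ∑ a ∈ s, Zop N i (F a) w :=
  Eop_sum N s (fun a u => F a (u ++ w.drop i)) (w.take i)

lemma h8_cap_B {N : ℕ} (hN : 2 ≤ N) (f : List ℕ → ℂ) (i : ℕ) (w : List ℕ) :
    piece N .cap (Zop N (i + 2) f) w = Zop N (i + 0) (piece N .cap f) w := by
  have h1 := piece_cap_E hN (fun u => f (u ++ w)) []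
  have h2 : Eop N (piece N .cap fun u => f (u ++ w)) [] = 0 := rfl
  rw [h2] at h1
  have h4 : Zop N (i + 0) (piece N .cap f) w = ∑ a ∈ range N,
      Zop N (i + 0) (fun u => capC N a * f (a :: (N - 1 - a) :: u)) w := h8_Zop_sum _ _ _ _ _
  rw [h4]
  simp only [piece] at h1 ⊢
  have h3 : ∀ a ∈ range N, capC N a * Zop N (i + 2) f (a :: (N - 1 - a) :: w) =
      v N ^ (wtl N (w.take i)) * (capC N a * Eop N (fun u => f (u ++ w)) [a, N - 1 - a]) +
        Zop N (i + 0) (fun u => capC N a * f (a :: (N - 1 - a) :: u)) w := by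
    intro a _
    rw [h8_Zop_split, h8_Zop_smul, add_zero]
    ring
  rw [sum_congr rfl h3, sum_add_distrib, ← mul_sum, h1]
  ring

lemma h8_Cas_B {N n : ℕ} (hN : 2 ≤ N) {f : List ℕ → ℂ} (hf : Sup N (n + 2) f) (i : ℕ) :
    Cas N (Zop N (i + 2) f) = Zop N (i + 2) (Cas N f) := by
  funext w
  rcases w with _ | ⟨a, _ | ⟨b, w⟩⟩
  · rw [h8_Zop_nil, h57_Cas_nil]
  · rw [h8_Zop_cons, h8_Zop_nil, h57_Cas_one, h57_Cas_one]; ring
  have hrest : Zop N i (fun u => Cas N f (a :: b :: u)) w =
      h57A N a b * Zop N i (fun u => f (a :: b :: u)) w +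
      h57B N a b * Zop N i (fun u => f ((a - 1) :: (b + 1) :: u)) w +
      h57D N a b * Zop N i (fun u => f ((a + 1) :: (b - 1) :: u)) w := by
    have : (fun u => Cas N f (a :: b :: u)) = fun u =>
        (fun u => (fun u => h57A N a b * f (a :: b :: u)) u +
          (fun u => h57B N a b * f ((a - 1) :: (b + 1) :: u)) u) u +
          (fun u => h57D N a b * f ((a + 1) :: (b - 1) :: u)) u := by
      funext u; rw [h57_Cas_expl]
    rw [this, h8_Zop_add, h8_Zop_add, h8_Zop_smul, h8_Zop_smul, h8_Zop_smul]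
  by_cases hw : ∀ x ∈ w, x < N
  · have hg : ∀ u, (∃ x ∈ u, N ≤ x) → Eop N (fun u => f (u ++ w)) u = 0 := by
      intro u hu
      have hs : ∀ m, m + w.length = n + 2 → Sup N m (fun u => f (u ++ w)) := by
        intro m hm u' hu'
        apply hf
        rintro ⟨h1, h2⟩
        apply hu'
        rw [List.length_append] at h1
        exact ⟨by omega, fun x hx => h2 x (by simp [hx])⟩
      by_cases hlen : w.length ≤ n + 2
      · have h1 := hs (n + 2 - w.length) (by omega)
        apply h1.E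
        rintro ⟨_, h2⟩
        obtain ⟨x, hx, hx'⟩ := hu
        have := h2 x hx
        omega
      · have h2 : (fun u => f (u ++ w)) = fun _ => 0 := by
          funext u'
          apply hf
          rintro ⟨h1, _⟩
          rw [List.length_append] at h1
          omega
        rw [h2, Eop_zero_fun]
    have h1 : Eop N (fun u => Cas N f (u ++ w)) [a, b] =
        h57C N (Eop N (fun u => f (u ++ w))) [a, b] := by
      rw [← h57C_E hN _ hg]
      apply h57_E2_congr
      intro a b
      exact h57_Cas_eq N f a b w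
    rw [h8_Zop_split N i (Cas N f), h1, hrest, h57_Cas_expl, h57C_expl,
      h8_Zop_split N i f a b w, h8_Zop_split N i f (a - 1) (b + 1) w,
      h8_Zop_split N i f (a + 1) (b - 1) w]
    ring
  · -- both sides vanish
    have hsupp : ¬ ((a :: b :: w).length = n + 2 ∧ ∀ x ∈ a :: b :: w, x < N) := by
      rintro ⟨_, h⟩
      exact hw (fun x hx => h x (by simp [hx]))
    rw [(Sup.Zop (Cas_Sup hf) (i + 2)) _ hsupp, (Cas_Sup (Sup.Zop hf (i + 2))) _ hsupp]

lemma h8_nC_B {N n : ℕ} (hN : 2 ≤ N) (m : ℕ) {f : List ℕ → ℂ} (hf : Sup N (n + 2) f) (i : ℕ)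
    (w : List ℕ) : nC N m (Zop N (i + 2) f) w = Zop N (i + 2) (nC N m f) w := by
  induction m generalizing w with
  | zero => rfl
  | succ m ih =>
    have h : nC N m (Zop N (i + 2) f) = Zop N (i + 2) (nC N m f) := funext fun u => ih u
    have h1 : nC N (m + 1) f = fun u => (TB.bb N (m + 1 : ℕ))⁻¹ *
        ((fun u => Cas N (nC N m f) u + (-TB.lam N m) * nC N m f u) u) := by
      funext u; simp only [nC]; ring
    simp only [nC] at h1 ⊢
    rw [h, h8_Cas_B hN (r3_nC_Sup hf), h1, h8_Zop_smul, h8_Zop_add, h8_Zop_smul]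
    ring

/-! ### the local module -/

/-- `E` on the prefix -/
noncomputable def h8x (N : ℕ) : (List ℕ → List ℕ → ℂ) →ₗ[ℂ] (List ℕ → List ℕ → ℂ) where
  toFun m := fun u w => Eop N (fun u' => m u' w) u
  map_add' m m' := by funext u w; exact Eop_add N _ _ _
  map_smul' c m := by funext u w; exact Eop_smul N c _ _

lemma h8x_apply (N : ℕ) (m : List ℕ → List ℕ → ℂ) (u w : List ℕ) :
    h8x N m u w = Eop N (fun u' => m u' w) u := rfl

/-- the rows -/
def h8G (k : ℕ) (f : List ℕ → ℂ) : ℕ → ℕ → List ℕ → List ℕ → ℂ := fun i j u w =>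
  if u.length = k then f (u ++ i :: j :: w) else 0

lemma h8G_apply {k : ℕ} (f : List ℕ → ℂ) (i j : ℕ) {u : List ℕ} (w : List ℕ) (hu : u.length = k) :
    h8G k f i j u w = f (u ++ i :: j :: w) := if_pos hu

lemma h8G_zero {k : ℕ} (f : List ℕ → ℂ) (i j : ℕ) {u : List ℕ} (w : List ℕ) (hu : u.length ≠ k) :
    h8G k f i j u w = 0 := if_neg hu

lemma h8_G0 (N k : ℕ) (f : List ℕ → ℂ) (i j : ℕ) :
    h8G k (Zop N k f) i j = h8x N (h8G k f i j) := by
  funext u w
  rw [h8x_apply]
  by_cases h : u.length = k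
  · rw [h8G_apply _ _ _ _ h]
    have h1 := Zop_append N f u (i :: j :: w)
    rw [h] at h1
    rw [h1]
    apply h8_Eop_congr
    intro u' hu'
    rw [h8G_apply _ _ _ _ (by rw [hu', h])]
  · rw [h8G_zero _ _ _ _ h, h8_Eop_congr u _ (fun _ => 0), Eop_zero_fun]
    intro u' hu'
    rw [h8G_zero _ _ _ _ (by rw [hu']; exact h)]

lemma h8_G1 (N k : ℕ) (f : List ℕ → ℂ) :
    h8G k (Zop N (k + 1) f) = Z1 N (h8x N) (h8G k f) := by
  funext i j u w
  simp only [Z1]
  rw [← h8_G0]
  simp only [Pi.add_apply, Pi.smul_apply, smul_eq_mul]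
  by_cases h : u.length = k
  · rw [h8G_apply _ _ _ _ h, h8G_apply _ _ _ _ h, h8G_apply _ _ _ _ h]
    subst h
    exact Zop_succ N f u (j :: w) i
  · rw [h8G_zero _ _ _ _ h, h8G_zero _ _ _ _ h, h8G_zero _ _ _ _ h]
    ring

lemma h8_G2 (N k : ℕ) (f : List ℕ → ℂ) :
    h8G k (Zop N (k + 2) f) = Z2 N (h8x N) (h8G k f) := by
  funext i j u w
  simp only [Z2]
  rw [← h8_G0]
  simp only [Pi.add_apply, Pi.smul_apply, smul_eq_mul]
  by_cases h : u.length = k
  · rw [h8G_apply _ _ _ _ h, h8G_apply _ _ _ _ h, h8G_apply _ _ _ _ h, h8G_apply _ _ _ _ h]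
    subst h
    have h1 := Zop_succ N f (u ++ [i]) w j
    have h2 := Zop_succ N f u (j :: w) i
    simp only [List.length_append, List.length_cons, List.length_nil, List.append_assoc,
      List.cons_append, List.nil_append, zero_add] at h1
    rw [show u.length + 2 = u.length + 1 + 1 from rfl, h1, h2,
      show v N ^ (wt N i + wt N j) = v N ^ (wt N i) * v N ^ (wt N j) from (vz _ _ _).symm]
    ring
  · rw [h8G_zero _ _ _ _ h, h8G_zero _ _ _ _ h, h8G_zero _ _ _ _ h, h8G_zero _ _ _ _ h]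
    ring

lemma h8_GU (N k m : ℕ) (f : List ℕ → ℂ) : h8G k (UK N k m f) = UG N m (h8G k f) := by
  have key : ∀ m i j u w, UG N m (h8G k f) i j u w =
      if u.length = k then nC N m (fun w' => f (u ++ w')) (i :: j :: w) else 0 := by
    intro m
    induction m with
    | zero => intro i j u w; rfl
    | succ m ih =>
      intro i j u w
      simp only [UG, CG, Pi.smul_apply, Pi.sub_apply, Pi.add_apply, smul_eq_mul, ih, nC]
      by_cases h : u.length = k
      · simp only [if_pos h]
        rw [h57_Cas_expl]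
      · simp only [if_neg h]
        ring
  funext i j u w
  rw [key]
  by_cases h : u.length = k
  · rw [h8G_apply _ _ _ _ h, if_pos h, h8_UK_eq]
    subst h
    exact h8_P_append f u (i :: j :: w)
  · rw [h8G_zero _ _ _ _ h, if_neg h]

lemma h8_GS {N n k : ℕ} {f : List ℕ → ℂ} (hf : Sup N n f) : SG N (h8G k f) := by
  intro i j hij
  funext u w
  by_cases h : u.length = k
  · rw [h8G_apply _ _ _ _ h]
    apply hf
    rintro ⟨_, h2⟩
    exact hij ⟨h2 i (by simp), h2 j (by simp)⟩
  · rw [h8G_zero _ _ _ _ h]; rfl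

lemma h8_G1_iter (N k t : ℕ) (f : List ℕ → ℂ) :
    h8G k ((Zop N (k + 1))^[t] f) = (Z1 N (h8x N))^[t] (h8G k f) := by
  induction t generalizing f with
  | zero => rfl
  | succ t ih => rw [Function.iterate_succ_apply, Function.iterate_succ_apply, ih, h8_G1]

lemma h8_G2_iter (N k t : ℕ) (f : List ℕ → ℂ) :
    h8G k ((Zop N (k + 2))^[t] f) = (Z2 N (h8x N))^[t] (h8G k f) := by
  induction t generalizing f with
  | zero => rfl
  | succ t ih => rw [Function.iterate_succ_apply, Function.iterate_succ_apply, ih, h8_G2]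

lemma h8_G0_iter (N k t : ℕ) (f : List ℕ → ℂ) (i j : ℕ) :
    h8G k ((Zop N k)^[t] f) i j = (h8x N ^ t) (h8G k f i j) := by
  induction t generalizing f with
  | zero => rfl
  | succ t ih =>
    rw [Function.iterate_succ_apply, ih, h8_G0, pow_succ, Module.End.mul_apply]

/-! ### the local rules on words -/

lemma h8_box {N k n m t : ℕ} (hN : 2 ≤ N) (hm : m < N) (ht : t < N) {g : List ℕ → ℂ}
    (hg : Sup N n g) (u w : List ℕ) (hu : u.length = k) :
    ((Zop N (k + 1))^[t] (UK N k m g)) (u ++ 0 :: 0 :: w) =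
      ∑ l ∈ range (t + 1), ∑ r ∈ range (t + 1 - l), (Wt N m l r (t - l - r) (N - 1 - t) : ℂ) *
        ((Zop N k)^[l] ((Zop N (k + 1))^[t - l - r] ((Zop N (k + 2))^[r] g))) (u ++ 0 :: 0 :: w) := by
  have h := congrFun (congrFun (box_loc hN (h8x N) (h8G k g) (h8_GS hg) hm ht) u) w
  rw [← h8_GU, ← h8_G1_iter, h8G_apply _ _ _ _ hu] at h
  rw [h]
  simp only [Finset.sum_apply, Pi.smul_apply, smul_eq_mul]
  apply sum_congr rfl
  intro l _
  apply sum_congr rfl
  intro r _
  rw [← h8_G2_iter, ← h8_G1_iter, ← h8_G0_iter, h8G_apply _ _ _ _ hu]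

lemma h8_slice_append (N : ℕ) (p : Piece) (f : List ℕ → ℂ) (u w : List ℕ) {k : ℕ}
    (hu : u.length = k) : Kashaev.slice N p k f (u ++ w) = piece N p (fun w' => f (u ++ w')) w := by
  subst hu
  rw [h8_slice_eq]
  exact h8_P_append f u w

lemma h8_cup {N k e : ℕ} (hN : 2 ≤ N) (he : e < N) (h : List ℕ → ℂ) (u w : List ℕ)
    (hu : u.length = k) :
    ((Zop N (k + 1))^[e] (Kashaev.slice N .cup k h)) (u ++ 0 :: 0 :: w) =
      if e = N - 1 then (qfac N (N - 1) ^ 2 * cupC N (N - 1)) * h (u ++ w) else 0 := by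
  have hG : h8G k (Kashaev.slice N .cup k h) = fun i j => if i + j + 1 = N then
      cupC N i • (fun u w => if u.length = k then h (u ++ w) else 0) else 0 := by
    funext i j u w
    by_cases hu : u.length = k
    · rw [h8G_apply _ _ _ _ hu, h8_slice_append _ _ _ _ _ hu]
      simp only [piece]
      split_ifs with h1
      · simp [hu]
      · rfl
    · rw [h8G_zero _ _ _ _ hu]
      split_ifs with h1
      · simp [hu]
      · rfl
  have h2 := congrFun (congrFun (cup_loc hN (h8x N)
    (fun u w => if u.length = k then h (u ++ w) else 0) he) u) w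
  rw [← hG, ← h8_G1_iter, h8G_apply _ _ _ _ hu] at h2
  rw [h2]
  split_ifs with h1
  · simp [hu]
  · rfl

lemma h8_cap {N k n : ℕ} (hN : 2 ≤ N) {h : List ℕ → ℂ} (hh : Sup N n h) (u w : List ℕ)
    (hu : u.length = k) :
    Kashaev.slice N .cap k h (u ++ w) = (qfac N (N - 1) ^ 2 * cupC N (N - 1))⁻¹ *
      ∑ i ∈ range N, ((Zop N k)^[i] ((Zop N (k + 2))^[N - 1 - i] h)) (u ++ 0 :: 0 :: w) := by
  have h2 := congrFun (congrFun (cap_loc hN (h8x N) (h8G k h) (h8_GS hh)) u) w
  simp only [Finset.sum_apply, Pi.smul_apply, smul_eq_mul] at h2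
  rw [h8_slice_append _ _ _ _ _ hu]
  simp only [piece]
  have h3 : ∀ a ∈ range N, capC N a * h (u ++ a :: (N - 1 - a) :: w) =
      capC N a * h8G k h a (N - 1 - a) u w := by
    intro a _
    rw [h8G_apply _ _ _ _ hu]
  rw [sum_congr rfl h3, h2]
  congr 1
  apply sum_congr rfl
  intro i _
  rw [← h8_G2_iter, ← h8_G0_iter, h8G_apply _ _ _ _ hu]

/-! ### several operators and an operator `T` -/

lemma h8_T_iter {N n i i' : ℕ} {T : (List ℕ → ℂ) → List ℕ → ℂ}
    (hT : ∀ g, Sup N n g → T (Zop N i g) = Zop N i' (T g)) (x : ℕ) {g : List ℕ → ℂ}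
    (hg : Sup N n g) : (Zop N i')^[x] (T g) = T ((Zop N i)^[x] g) := by
  induction x generalizing g with
  | zero => rfl
  | succ x ih =>
    rw [Function.iterate_succ_apply, Function.iterate_succ_apply, ← hT g hg]
    exact ih (Sup.Zop hg i)

lemma h8_Dz_T {N n s s' : ℕ} {T : (List ℕ → ℂ) → List ℕ → ℂ} (d : List ℕ) :
    ∀ (j : ℕ) (f : List ℕ → ℂ), Sup N n f →
    (∀ i, j ≤ i → i < j + d.length → ∀ g, Sup N n g → T (Zop N (i + s) g) = Zop N (i + s') (T g)) →
    Dz N (j + s') d (T f) = T (Dz N (j + s) d f) := by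
  induction d with
  | nil => intro j f _ _; rfl
  | cons x d ih =>
    intro j f hf hT
    simp only [Dz]
    rw [h8_T_iter (hT j le_rfl (by simp)) x hf, show j + s' + 1 = (j + 1) + s' by ring,
      show j + s + 1 = (j + 1) + s by ring]
    apply ih (j + 1) _ (h8_Sup_Zop_iter hf (j + s) x)
    intro i h1 h2 g hg
    exact hT i (by omega) (by simp only [List.length_cons]; omega) g hg

lemma h8_iter_comm (N i j x y : ℕ) (f : List ℕ → ℂ) :
    (Zop N i)^[x] ((Zop N j)^[y] f) = (Zop N j)^[y] ((Zop N i)^[x] f) := by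
  have h : Function.Commute (Zop N i) (Zop N j) := fun f => Zop_comm N i j f
  exact h.iterate_iterate x y f

lemma h8_lft_append {R : Type} [CommSemiring R] (op : (List ℕ → R) → List ℕ → R) (g : List ℕ → R)
    (l w : List ℕ) {k : ℕ} (hl : l.length = k) :
    lft op k g (l ++ w) = op (fun u => g (l ++ u)) w := by
  subst hl
  induction l generalizing g with
  | nil => rfl
  | cons x l ih => simp only [List.length_cons, List.cons_append, lft]; exact ih _

lemma h8_split3 {d : List ℕ} {k : ℕ} (h : k + 3 ≤ d.length) :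
    ∃ l X t Y r, d = l ++ X :: t :: Y :: r ∧ l.length = k := by
  refine ⟨d.take k, ?_⟩
  have h1 : (d.drop k).length = d.length - k := List.length_drop
  rcases h2 : d.drop k with _ | ⟨X, _ | ⟨t, _ | ⟨Y, r⟩⟩⟩
  · rw [h2] at h1; simp at h1; omega
  · rw [h2] at h1; simp at h1; omega
  · rw [h2] at h1; simp at h1; omega
  · refine ⟨X, t, Y, r, ?_, ?_⟩
    · rw [← h2, List.take_append_drop]
    · rw [List.length_take]; omega

lemma h8_split1 {d : List ℕ} {k : ℕ} (h : k + 1 ≤ d.length) :
    ∃ l X r, d = l ++ X :: r ∧ l.length = k := by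
  refine ⟨d.take k, ?_⟩
  have h1 : (d.drop k).length = d.length - k := List.length_drop
  rcases h2 : d.drop k with _ | ⟨X, r⟩
  · rw [h2] at h1; simp at h1; omega
  · refine ⟨X, r, ?_, ?_⟩
    · rw [← h2, List.take_append_drop]
    · rw [List.length_take]; omega

lemma h8_rep {n k j : ℕ} (h : n = k + 2 + j) :
    List.replicate n 0 = List.replicate k 0 ++ 0 :: 0 :: List.replicate j 0 := by
  subst h
  rw [show k + 2 + j = k + (2 + j) by ring, List.replicate_add, List.replicate_add]
  rfl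

/-- the factor of a minimum -/
noncomputable def cst (N : ℕ) : ℂ := qfac N (N - 1) ^ 2 * cupC N (N - 1)

theorem cst_ne {N : ℕ} (hN : 2 ≤ N) : cst N ≠ 0 :=
  mul_ne_zero (pow_ne_zero _ (qfac_ne (by omega))) (cupC_ne N _)

theorem box_rule {N : ℕ} (hN : 2 ≤ N) {k n m : ℕ} (hm : m < N) (hk : k + 2 ≤ n) {f : List ℕ → ℂ}
    (hf : Sup N n f) {d : List ℕ} (hd : d.length = n + 1) :
    DD N (UK N k m f) d = lft (boxT (N - 1) (fun a uL uR uB uT =>
      if a = N - 1 - m then (Wt N m uL uR uB uT : ℂ) else 0)) k (DD N f) d := by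
  obtain ⟨l, X, t, Y, r, rfl, hl⟩ := h8_split3 (d := d) (k := k) (by omega)
  rw [h8_lft_append _ _ _ _ hl]
  by_cases ht : t < N
  · have hlen : n = k + 2 + r.length := by
      simp only [List.length_append, List.length_cons] at hd; omega
    obtain ⟨n', hn'⟩ : ∃ n', n = n' + k + 2 := ⟨n - k - 2, by omega⟩
    -- commutation of the box
    have hTl : ∀ i, i ≤ k → ∀ g, Sup N n g → UK N k m (Zop N i g) = Zop N i (UK N k m g) := by
      intro i hi g _
      funext w
      rw [h8_UK_eq, h8_UK_eq, h8_P_left (h8_nC_lin N m) k i hi g w]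
    have hTr : ∀ i, ∀ g, Sup N n g →
        UK N k m (Zop N (i + k + 2) g) = Zop N (i + k + 2) (UK N k m g) := by
      intro i g hg
      funext w
      rw [h8_UK_eq, h8_UK_eq]
      exact h8_P_right (h8_nC_lin N m) (fun φ i g w => h8_nC_W m φ i g w)
        (fun n f hf i w => h8_nC_B hN m hf i w) k n' g (by rw [← hn']; exact hg) i w
    -- the left side
    have e1 : Dz N 0 l (UK N k m f) = UK N k m (Dz N 0 l f) :=
      h8_Dz_T (s := 0) (s' := 0) (T := UK N k m) l 0 f hf
        (fun i _ hi g hg => hTl i (by omega) g hg)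
    have hf0 : Sup N n (Dz N 0 l f) := Dz_Sup hf l
    have e2 : (Zop N k)^[X] (UK N k m (Dz N 0 l f)) = UK N k m ((Zop N k)^[X] (Dz N 0 l f)) :=
      h8_T_iter (fun g hg => hTl k le_rfl g hg) X hf0
    have hf1 : Sup N n ((Zop N k)^[X] (Dz N 0 l f)) := h8_Sup_Zop_iter hf0 k X
    have e3 : (Zop N (k + 2))^[Y] (UK N k m ((Zop N k)^[X] (Dz N 0 l f))) =
        UK N k m ((Zop N (k + 2))^[Y] ((Zop N k)^[X] (Dz N 0 l f))) := by
      apply h8_T_iter _ Y hf1
      intro g hg
      have := hTr 0 g hg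
      rwa [zero_add] at this
    have hf2 := h8_Sup_Zop_iter hf1 (k + 2) Y
    have e4 : Dz N (k + 3) r (UK N k m ((Zop N (k + 2))^[Y] ((Zop N k)^[X] (Dz N 0 l f)))) =
        UK N k m (Dz N (k + 3) r ((Zop N (k + 2))^[Y] ((Zop N k)^[X] (Dz N 0 l f)))) := by
      apply h8_Dz_T (s := 0) (s' := 0) (T := UK N k m) r (k + 3) _ hf2
      intro i hi _ g hg
      have := hTr (i - k - 2) g hg
      rwa [show i - k - 2 + k + 2 = i by omega] at this
    have hf3 : Sup N n (Dz N (k + 3) r ((Zop N (k + 2))^[Y] ((Zop N k)^[X] (Dz N 0 l f)))) :=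
      Dz_Sup hf2 r
    have eL : Dz N 0 (l ++ X :: t :: Y :: r) (UK N k m f) = (Zop N (k + 1))^[t]
        (UK N k m (Dz N (k + 3) r ((Zop N (k + 2))^[Y] ((Zop N k)^[X] (Dz N 0 l f))))) := by
      rw [Dz_append, zero_add, hl]
      show Dz N (k + 3) r ((Zop N (k + 2))^[Y] ((Zop N (k + 1))^[t] ((Zop N k)^[X]
        (Dz N 0 l (UK N k m f))))) = _
      rw [e1, e2, h8_iter_comm N (k + 2) (k + 1) Y t, Dz_Zop_comm, e3, e4]
    -- the right side
    have eR : ∀ a s b, Dz N 0 (l ++ (X + a) :: s :: (Y + b) :: r) f =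
        (Zop N k)^[a] ((Zop N (k + 1))^[s] ((Zop N (k + 2))^[b]
          (Dz N (k + 3) r ((Zop N (k + 2))^[Y] ((Zop N k)^[X] (Dz N 0 l f)))))) := by
      intro a s b
      rw [Dz_append, zero_add, hl]
      show Dz N (k + 3) r ((Zop N (k + 2))^[Y + b] ((Zop N (k + 1))^[s] ((Zop N k)^[X + a]
        (Dz N 0 l f)))) = _
      generalize Dz N 0 l f = F
      rw [← Dz_Zop_comm N (k + 2) (k + 3) r, ← Dz_Zop_comm N (k + 1) (k + 3) r,
        ← Dz_Zop_comm N k (k + 3) r]
      congr 1
      rw [show X + a = a + X by ring, show Y + b = b + Y by ring, Function.iterate_add_apply,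
        Function.iterate_add_apply, h8_iter_comm N (k + 1) k s a, h8_iter_comm N (k + 2) k Y a,
        h8_iter_comm N (k + 2) k b a, h8_iter_comm N (k + 2) (k + 1) Y s,
        h8_iter_comm N (k + 2) (k + 1) b s]
    unfold DD
    simp only [boxT]
    rw [if_pos (show t ≤ N - 1 by omega), hd, Nat.add_sub_cancel, eL, h8_rep hlen,
      h8_box hN hm ht hf3 _ _ List.length_replicate]
    symm
    rw [sum_eq_single (N - 1 - m)]
    · apply sum_congr rfl
      intro a ha
      apply sum_congr rfl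
      intro b hb
      rw [if_pos rfl, eR]
      have h1 : (l ++ (X + a) :: (t - a - b) :: (Y + b) :: r).length - 1 = n := by
        simp only [List.length_append, List.length_cons] at hd ⊢; omega
      rw [h1, h8_rep hlen]
    · intro a _ ha
      apply sum_eq_zero
      intro b _
      apply sum_eq_zero
      intro c _
      rw [if_neg ha, zero_mul]
    · intro h
      exact absurd (mem_range.mpr (by omega)) h
  · rw [DD_ge hN (UK N k m f) (x := t) (by simp) (by omega)]
    simp only [boxT]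
    rw [if_neg (by omega)]

theorem cup_rule {N : ℕ} (hN : 2 ≤ N) {k n : ℕ} (hk : k ≤ n) {f : List ℕ → ℂ}
    (hf : Sup N n f) {d : List ℕ} (hd : d.length = n + 3) :
    DD N (Kashaev.slice N .cup k f) d = cst N * lft (cupT (N - 1)) k (DD N f) d := by
  obtain ⟨l, X, e, Y, r, rfl, hl⟩ := h8_split3 (d := d) (k := k) (by omega)
  rw [h8_lft_append _ _ _ _ hl]
  by_cases he : e < N
  · have hlen : n + 2 = k + 2 + r.length := by
      simp only [List.length_append, List.length_cons] at hd; omega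
    obtain ⟨n', hn'⟩ : ∃ n', n = n' + k := ⟨n - k, by omega⟩
    have hTl : ∀ i, i ≤ k → ∀ g, Sup N n g →
        Kashaev.slice N .cup k (Zop N i g) = Zop N i (Kashaev.slice N .cup k g) := by
      intro i hi g _
      funext w
      rw [h8_slice_eq, h8_slice_eq, h8_P_left (h8_piece_lin N .cup) k i hi g w]
    have hTr : ∀ i, ∀ g, Sup N n g →
        Kashaev.slice N .cup k (Zop N (i + k) g) = Zop N (i + k + 2) (Kashaev.slice N .cup k g) := by
      intro i g hg
      funext w
      rw [h8_slice_eq, h8_slice_eq]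
      exact h8_P_right (a := 0) (n0 := 0) (h8_piece_lin N .cup) (fun φ i g w => h8_cup_W φ i g w)
        (fun n f _ i w => h8_cup_B f i w) k n' g (by rw [add_zero, ← hn']; exact hg) i w
    have e1 : Dz N 0 l (Kashaev.slice N .cup k f) = Kashaev.slice N .cup k (Dz N 0 l f) :=
      h8_Dz_T (s := 0) (s' := 0) (T := Kashaev.slice N .cup k) l 0 f hf
        (fun i _ hi g hg => hTl i (by omega) g hg)
    have hf0 : Sup N n (Dz N 0 l f) := Dz_Sup hf l
    have e2 : (Zop N k)^[X] (Kashaev.slice N .cup k (Dz N 0 l f)) =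
        Kashaev.slice N .cup k ((Zop N k)^[X] (Dz N 0 l f)) :=
      h8_T_iter (fun g hg => hTl k le_rfl g hg) X hf0
    have hf1 : Sup N n ((Zop N k)^[X] (Dz N 0 l f)) := h8_Sup_Zop_iter hf0 k X
    have e3 : (Zop N (k + 2))^[Y] (Kashaev.slice N .cup k ((Zop N k)^[X] (Dz N 0 l f))) =
        Kashaev.slice N .cup k ((Zop N k)^[Y] ((Zop N k)^[X] (Dz N 0 l f))) := by
      apply h8_T_iter _ Y hf1
      intro g hg
      have := hTr 0 g hg
      rwa [zero_add] at this
    have hf2 := h8_Sup_Zop_iter hf1 k Y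
    have e4 : Dz N (k + 3) r (Kashaev.slice N .cup k
        ((Zop N k)^[Y] ((Zop N k)^[X] (Dz N 0 l f)))) =
        Kashaev.slice N .cup k (Dz N (k + 1) r ((Zop N k)^[Y] ((Zop N k)^[X] (Dz N 0 l f)))) := by
      apply h8_Dz_T (s := 0) (s' := 2) (T := Kashaev.slice N .cup k) r (k + 1) _ hf2
      intro i hi _ g hg
      have := hTr (i - k) g hg
      rwa [show i - k + k = i by omega] at this
    have eL : Dz N 0 (l ++ X :: e :: Y :: r) (Kashaev.slice N .cup k f) = (Zop N (k + 1))^[e]
        (Kashaev.slice N .cup k (Dz N (k + 1) r ((Zop N k)^[Y] ((Zop N k)^[X] (Dz N 0 l f))))) := by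
      rw [Dz_append, zero_add, hl]
      show Dz N (k + 3) r ((Zop N (k + 2))^[Y] ((Zop N (k + 1))^[e] ((Zop N k)^[X]
        (Dz N 0 l (Kashaev.slice N .cup k f))))) = _
      rw [e1, e2, h8_iter_comm N (k + 2) (k + 1) Y e, Dz_Zop_comm, e3, e4]
    have eR : Dz N 0 (l ++ (X + Y) :: r) f =
        Dz N (k + 1) r ((Zop N k)^[Y] ((Zop N k)^[X] (Dz N 0 l f))) := by
      rw [Dz_append, zero_add, hl]
      show Dz N (k + 1) r ((Zop N k)^[X + Y] (Dz N 0 l f)) = _
      rw [show X + Y = Y + X by ring, Function.iterate_add_apply]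
    unfold DD
    simp only [cupT]
    have h1 : (l ++ X :: e :: Y :: r).length - 1 = n + 2 := by omega
    have h2 : (l ++ (X + Y) :: r).length - 1 = n := by
      simp only [List.length_append, List.length_cons] at hd ⊢; omega
    rw [h1, eL, h8_rep hlen, h8_cup hN he _ _ _ List.length_replicate, h2, eR]
    split_ifs with h3
    · rw [← List.replicate_add, show k + r.length = n by omega]
      rfl
    · rw [mul_zero]
  · rw [DD_ge hN (Kashaev.slice N .cup k f) (x := e) (by simp) (by omega)]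
    simp only [cupT]
    rw [if_neg (by omega), mul_zero]

theorem cap_rule {N : ℕ} (hN : 2 ≤ N) {k n : ℕ} (hk : k ≤ n) {f : List ℕ → ℂ}
    (hf : Sup N (n + 2) f) {d : List ℕ} (hd : d.length = n + 1) :
    DD N (Kashaev.slice N .cap k f) d = (cst N)⁻¹ * lft (capT (N - 1)) k (DD N f) d := by
  obtain ⟨l, X, r, rfl, hl⟩ := h8_split1 (d := d) (k := k) (by omega)
  rw [h8_lft_append _ _ _ _ hl]
  have hlen : n = k + r.length := by
    simp only [List.length_append, List.length_cons] at hd; omega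
  obtain ⟨n', hn'⟩ : ∃ n', n = n' + k := ⟨n - k, by omega⟩
  have hTl : ∀ i, i ≤ k → ∀ g, Sup N (n + 2) g →
      Kashaev.slice N .cap k (Zop N i g) = Zop N i (Kashaev.slice N .cap k g) := by
    intro i hi g _
    funext w
    rw [h8_slice_eq, h8_slice_eq, h8_P_left (h8_piece_lin N .cap) k i hi g w]
  have hTr : ∀ i, ∀ g, Sup N (n + 2) g →
      Kashaev.slice N .cap k (Zop N (i + k + 2) g) = Zop N (i + k) (Kashaev.slice N .cap k g) := by
    intro i g hg
    funext w
    rw [h8_slice_eq, h8_slice_eq]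
    exact h8_P_right (b := 0) (n0 := 2) (h8_piece_lin N .cap) (fun φ i g w => h8_cap_W φ i g w)
      (fun n f _ i w => h8_cap_B hN f i w) k n' g (by rw [← hn']; exact hg) i w
  have e1 : Dz N 0 l (Kashaev.slice N .cap k f) = Kashaev.slice N .cap k (Dz N 0 l f) :=
    h8_Dz_T (s := 0) (s' := 0) (T := Kashaev.slice N .cap k) l 0 f hf
      (fun i _ hi g hg => hTl i (by omega) g hg)
  have hf0 : Sup N (n + 2) (Dz N 0 l f) := Dz_Sup hf l
  have e2 : (Zop N k)^[X] (Kashaev.slice N .cap k (Dz N 0 l f)) =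
      Kashaev.slice N .cap k ((Zop N k)^[X] (Dz N 0 l f)) :=
    h8_T_iter (fun g hg => hTl k le_rfl g hg) X hf0
  have hf1 : Sup N (n + 2) ((Zop N k)^[X] (Dz N 0 l f)) := h8_Sup_Zop_iter hf0 k X
  have e4 : Dz N (k + 1) r (Kashaev.slice N .cap k ((Zop N k)^[X] (Dz N 0 l f))) =
      Kashaev.slice N .cap k (Dz N (k + 3) r ((Zop N k)^[X] (Dz N 0 l f))) := by
    apply h8_Dz_T (s := 2) (s' := 0) (T := Kashaev.slice N .cap k) r (k + 1) _ hf1
    intro i hi _ g hg
    have := hTr (i - k) g hg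
    rwa [show i - k + k = i by omega] at this
  have hf2 : Sup N (n + 2) (Dz N (k + 3) r ((Zop N k)^[X] (Dz N 0 l f))) := Dz_Sup hf1 r
  have eL : Dz N 0 (l ++ X :: r) (Kashaev.slice N .cap k f) =
      Kashaev.slice N .cap k (Dz N (k + 3) r ((Zop N k)^[X] (Dz N 0 l f))) := by
    rw [Dz_append, zero_add, hl]
    show Dz N (k + 1) r ((Zop N k)^[X] (Dz N 0 l (Kashaev.slice N .cap k f))) = _
    rw [e1, e2, e4]
  have eR : ∀ a b, Dz N 0 (l ++ (X + a) :: 0 :: b :: r) f =
      (Zop N k)^[a] ((Zop N (k + 2))^[b] (Dz N (k + 3) r ((Zop N k)^[X] (Dz N 0 l f)))) := by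
    intro a b
    rw [Dz_append, zero_add, hl]
    show Dz N (k + 3) r ((Zop N (k + 2))^[b] ((Zop N k)^[X + a] (Dz N 0 l f))) = _
    generalize Dz N 0 l f = F
    rw [← Dz_Zop_comm N (k + 2) (k + 3) r, ← Dz_Zop_comm N k (k + 3) r]
    congr 1
    rw [show X + a = a + X by ring, Function.iterate_add_apply, h8_iter_comm N (k + 2) k b a]
  have hn : (l ++ X :: r).length - 1 = k + r.length := by omega
  have h1 : DD N (Kashaev.slice N .cap k f) (l ++ X :: r) = (cst N)⁻¹ *
      ∑ i ∈ range N, DD N f (l ++ (X + i) :: 0 :: (N - 1 - i) :: r) := by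
    unfold DD
    rw [hn, eL, List.replicate_add, h8_cap hN hf2 _ _ List.length_replicate]
    congr 1
    apply sum_congr rfl
    intro i _
    rw [eR]
    have h2 : (l ++ (X + i) :: 0 :: (N - 1 - i) :: r).length - 1 = k + 2 + r.length := by
      simp only [List.length_append, List.length_cons] at hd ⊢; omega
    rw [h2, h8_rep rfl]
  rw [h1]
  congr 1
  simp only [capT]
  rw [show N - 1 + 1 - X = N - X by omega]
  symm
  apply sum_subset
  · intro i hi; rw [mem_range] at *; omega
  · intro i hi h2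
    rw [mem_range] at hi h2
    exact DD_ge hN f (x := X + i) (by simp) (by omega)

end Pool.Agent.Helper9.FA
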